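import Mathlib

/-!
# Non-isometric metric spaces at Gromov-Hausdorff distance zero with closed discrete distance set

Points are pairs `(n, k)` of a column `n` and a height `k`.  Two distinct points have distance
`M + c / M` with `M = max k l + 2` and `c ∈ {0, 1/2, 1}`: `c = 0` if the columns are different, and
within the column `n` one has `c = 1` if `max k l < n` and `c = 1/2` otherwise.  The space `X` has
the columns `0, 1, 2, …` and the space `Y` has an additional column `∞`.
-/

set_option autoImplicit false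

namespace Pool.Agent.Results.MP_1d6438_gt.ShiftedColumns

open Set Metric Topology Filter

/-- The Gromov-Hausdorff distance of arbitrary metric spaces, with values in `[0, ∞]`: the infimum
of the Hausdorff distances of isometric copies in a common metric space. -/
noncomputable def dGH (X Y : Type) [MetricSpace X] [MetricSpace Y] : ENNReal :=
  ⨅ (Z : Type) (_ : MetricSpace Z) (f : X → Z) (g : Y → Z) (_ : Isometry f) (_ : Isometry g),
    hausdorffEDist (range f) (range g)

/-- The distance set of a metric space. -/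
def distSet (X : Type) [MetricSpace X] : Set ℝ := {r | ∃ x y : X, r = dist x y}

/-- The space of columns indexed by `I`, where `γ n m` is the parameter `c` in column `n` for
points of maximal height `m`. -/
structure Col {I : Type} (γ : I → ℕ → ℝ) where
  col : I
  ht : ℕ

lemma Col.ext' {I : Type} {γ : I → ℕ → ℝ} {x y : Col γ} (h : x.col = y.col) (h' : x.ht = y.ht) :
    x = y := by
  cases x
  cases y
  simp_all

open Classical in
/-- The parameter `c` of a pair of points. -/
noncomputable def cc {I : Type} {γ : I → ℕ → ℝ} (x y : Col γ) : ℝ :=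
  if x.col = y.col then γ x.col (max x.ht y.ht) else 0

/-- The parameter `M` of a pair of points. -/
def MM {I : Type} {γ : I → ℕ → ℝ} (x y : Col γ) : ℕ := max x.ht y.ht + 2

open Classical in
/-- The metric. -/
noncomputable def dd {I : Type} {γ : I → ℕ → ℝ} (x y : Col γ) : ℝ :=
  if x = y then 0 else (MM x y : ℝ) + cc x y / MM x y

/-- The condition on `γ`. -/
def Good {I : Type} (γ : I → ℕ → ℝ) : Prop := ∀ n m, γ n m = 1 / 2 ∨ γ n m = 1

section

variable {I : Type} {γ : I → ℕ → ℝ}

lemma cc_mem (h : Good γ) (x y : Col γ) : cc x y = 0 ∨ cc x y = 1 / 2 ∨ cc x y = 1 := by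
  unfold cc
  split_ifs
  · exact Or.inr (h _ _)
  · exact Or.inl rfl

lemma cc_nonneg (h : Good γ) (x y : Col γ) : 0 ≤ cc x y := by
  rcases cc_mem h x y with h | h | h <;> rw [h] <;> norm_num

lemma cc_le (h : Good γ) (x y : Col γ) : cc x y ≤ 1 := by
  rcases cc_mem h x y with h | h | h <;> rw [h] <;> norm_num

lemma two_le_MM (x y : Col γ) : (2 : ℝ) ≤ MM x y := by
  unfold MM
  push_cast
  have : (0 : ℝ) ≤ max (x.ht : ℝ) (y.ht : ℝ) := le_max_of_le_left (Nat.cast_nonneg _)
  linarith

lemma cc_div_nonneg (h : Good γ) (x y : Col γ) : 0 ≤ cc x y / MM x y :=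
  div_nonneg (cc_nonneg h x y) (Nat.cast_nonneg _)

lemma cc_div_le (h : Good γ) (x y : Col γ) : cc x y / MM x y ≤ 1 / 2 := by
  have := two_le_MM x y
  rw [div_le_iff₀ (by linarith)]
  have := cc_le h x y
  linarith

lemma cc_comm (x y : Col γ) : cc x y = cc y x := by
  unfold cc
  by_cases h : x.col = y.col
  · rw [if_pos h, if_pos h.symm, h, max_comm]
  · rw [if_neg h, if_neg (Ne.symm h)]

lemma MM_comm (x y : Col γ) : MM x y = MM y x := by
  unfold MM
  rw [max_comm]

lemma dd_of_ne {x y : Col γ} (h : x ≠ y) : dd x y = (MM x y : ℝ) + cc x y / MM x y := if_neg h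

lemma MM_le_dd (h : Good γ) {x y : Col γ} (hxy : x ≠ y) : (MM x y : ℝ) ≤ dd x y := by
  rw [dd_of_ne hxy]
  linarith [cc_div_nonneg h x y]

lemma dd_le_MM (h : Good γ) {x y : Col γ} (hxy : x ≠ y) : dd x y ≤ (MM x y : ℝ) + 1 / 2 := by
  rw [dd_of_ne hxy]
  linarith [cc_div_le h x y]

lemma dd_triangle (h : Good γ) (x y z : Col γ) : dd x z ≤ dd x y + dd y z := by
  by_cases hxz : x = z
  · have h1 : ∀ u v : Col γ, 0 ≤ dd u v := by
      intro u v
      by_cases huv : u = v
      · rw [dd, if_pos huv]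
      · linarith [MM_le_dd h huv, two_le_MM u v]
    rw [dd, if_pos hxz]
    exact add_nonneg (h1 _ _) (h1 _ _)
  by_cases hxy : x = y
  · rw [hxy, dd, dd, if_pos rfl]
    linarith
  by_cases hyz : y = z
  · rw [hyz]
    nth_rw 3 [dd]
    rw [if_pos rfl]
    linarith
  have h1 := dd_le_MM h hxz
  have h2 := MM_le_dd h hxy
  have h3 := MM_le_dd h hyz
  have h4 : MM x z + 2 ≤ MM x y + MM y z := by
    unfold MM
    omega
  have h5 : (MM x z : ℝ) + 2 ≤ MM x y + MM y z := by exact_mod_cast h4
  linarith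

end

/-- The metric space structure. -/
@[reducible] noncomputable def colMetric {I : Type} {γ : I → ℕ → ℝ} (h : Good γ) : MetricSpace (Col γ) where
  dist := dd
  dist_self x := if_pos rfl
  dist_comm x y := by
    unfold dd
    by_cases hxy : x = y
    · rw [if_pos hxy, if_pos hxy.symm]
    · rw [if_neg hxy, if_neg (Ne.symm hxy), MM_comm, cc_comm]
  dist_triangle := dd_triangle h
  eq_of_dist_eq_zero {x y} hxy := by
    by_contra hne
    change dd x y = 0 at hxy
    linarith [MM_le_dd h hne, two_le_MM x y]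

/-- The parameters of `X`. -/
noncomputable def γX : ℕ → ℕ → ℝ := fun n m => if m < n then 1 else 1 / 2

/-- The parameters of `Y`. -/
noncomputable def γY : Option ℕ → ℕ → ℝ := fun a m => a.elim 1 fun n => γX n m

lemma good_X : Good γX := by
  intro n m
  unfold γX
  split_ifs
  · exact Or.inr rfl
  · exact Or.inl rfl

lemma good_Y : Good γY := by
  rintro (_ | n) m
  · exact Or.inr rfl
  · exact good_X n m

noncomputable instance : MetricSpace (Col γX) := colMetric good_X

noncomputable instance : MetricSpace (Col γY) := colMetric good_Y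

instance : Nonempty (Col γX) := ⟨⟨0, 0⟩⟩

instance : Nonempty (Col γY) := ⟨⟨none, 0⟩⟩

/-! ### The distance set -/

lemma distSet_X : IsClosed (distSet (Col γX)) ∧ DiscreteTopology (distSet (Col γX)) := by
  rw [← isDiscrete_iff_discreteTopology, isClosed_and_discrete_iff]
  intro r
  obtain ⟨N, hN⟩ := exists_nat_ge (r + 1)
  -- the part of the distance set in a neighbourhood of `r` is finite
  have hfin : (distSet (Col γX) ∩ ball r 1).Finite := by
    refine Set.Finite.subset (s := insert 0 (image2 (fun (m : ℕ) (c : ℝ) => (m : ℝ) + c / m)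
      (Iic N) {0, 1 / 2, 1})) ?_ ?_
    · exact (Set.Finite.image2 _ (finite_Iic N) (by simp)).insert 0
    · rintro s ⟨⟨x, y, rfl⟩, hs⟩
      by_cases hxy : x = y
      · left
        rw [hxy, dist_self]
      · right
        refine ⟨MM x y, ?_, cc x y, ?_, (dd_of_ne hxy).symm⟩
        · have h1 := MM_le_dd good_X hxy
          have h2 : dd x y < r + 1 := by
            have := (abs_lt.1 (mem_ball_iff_norm.1 hs)).2
            change dd x y - r < 1 at this
            linarith
          have h3 : (MM x y : ℝ) ≤ N := by linarith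
          exact_mod_cast h3
        · rcases cc_mem good_X x y with h | h | h <;> simp [h]
  rw [Filter.disjoint_principal_right]
  have h1 : ((distSet (Col γX) ∩ ball r 1) \ {r})ᶜ ∈ 𝓝 r :=
    (hfin.subset sdiff_subset).isClosed.isOpen_compl.mem_nhds fun h => h.2 rfl
  have h2 : ball r 1 ∈ 𝓝 r := ball_mem_nhds r one_pos
  rw [mem_nhdsWithin_iff_exists_mem_nhds_inter]
  refine ⟨_, Filter.inter_mem h1 h2, ?_⟩
  rintro s ⟨⟨hs1, hs2⟩, hs3⟩ hs4
  exact hs1 ⟨⟨hs4, hs2⟩, hs3⟩

/-! ### The Gromov-Hausdorff distance -/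

/-- The shift of columns. -/
def e (N : ℕ) : Option ℕ → ℕ := fun a => a.elim N fun n => if n < N then n else n + 1

lemma e_injective (N : ℕ) : Function.Injective (e N) := by
  rintro (_ | n) (_ | m) h
  · rfl
  · simp only [e, Option.elim] at h
    split_ifs at h <;> omega
  · simp only [e, Option.elim] at h
    split_ifs at h <;> omega
  · simp only [e, Option.elim] at h
    congr 1
    split_ifs at h <;> omega

lemma e_surjective (N : ℕ) : Function.Surjective (e N) := by
  intro m
  rcases lt_trichotomy m N with h | h | h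
  · exact ⟨some m, by simp [e, h]⟩
  · exact ⟨none, by simp [e, h]⟩
  · refine ⟨some (m - 1), ?_⟩
    simp only [e, Option.elim]
    split_ifs <;> omega

lemma gamma_diff (N : ℕ) (a : Option ℕ) (m : ℕ) :
    |γX (e N a) m - γY a m| / ((m + 2 : ℕ) : ℝ) ≤ 1 / ((N : ℝ) + 1) := by
  have h2 : (0 : ℝ) < ((m + 2 : ℕ) : ℝ) := by positivity
  have h3 : (0 : ℝ) < (N : ℝ) + 1 := by positivity
  by_cases h : γX (e N a) m = γY a m
  · rw [h, sub_self, abs_zero, zero_div]
    positivity
  · have hm : N ≤ m := by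
      by_contra hlt
      apply h
      rcases a with _ | n
      · exact if_pos (not_le.1 hlt)
      · by_cases hn : n < N
        · have h5 : e N (some n) = n := if_pos hn
          rw [h5]
          rfl
        · have h5 : e N (some n) = n + 1 := if_neg hn
          have h6 : γX (n + 1) m = 1 := if_pos (by omega)
          have h7 : γY (some n) m = 1 := if_pos (by omega)
          rw [h5, h6, h7]
    have h4 : |γX (e N a) m - γY a m| ≤ 1 := by
      rcases good_X (e N a) m with h5 | h5 <;> rcases good_Y a m with h6 | h6 <;>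
        rw [h5, h6] <;> norm_num [abs_of_neg]
    rw [div_le_div_iff₀ h2 h3]
    have h5 : (N : ℝ) + 1 ≤ ((m + 2 : ℕ) : ℝ) := by
      push_cast
      have : (N : ℝ) ≤ m := by exact_mod_cast hm
      linarith
    nlinarith [abs_nonneg (γX (e N a) m - γY a m)]

/-- The map from `Y` to `X` shifting the columns. -/
def Φ (N : ℕ) (y : Col γY) : Col γX := ⟨e N y.col, y.ht⟩

lemma Φ_surjective (N : ℕ) : Function.Surjective (Φ N) := by
  intro x
  obtain ⟨a, ha⟩ := e_surjective N x.col
  exact ⟨⟨a, x.ht⟩, Col.ext' ha rfl⟩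

lemma Φ_dist (N : ℕ) (x y : Col γY) :
    |dist (Φ N x) (Φ N y) - dist x y| ≤ 1 / ((N : ℝ) + 1) := by
  change |dd (Φ N x) (Φ N y) - dd x y| ≤ 1 / ((N : ℝ) + 1)
  by_cases hxy : x = y
  · rw [hxy, dd, dd, if_pos rfl, if_pos rfl, sub_self, abs_zero]
    positivity
  have hne : Φ N x ≠ Φ N y := fun h =>
    hxy (Col.ext' (e_injective N (congrArg Col.col h)) (show (Φ N x).ht = (Φ N y).ht by rw [h]))
  rw [dd_of_ne hxy, dd_of_ne hne]
  change |((MM x y : ℝ) + cc (Φ N x) (Φ N y) / (MM x y : ℝ)) - _| ≤ _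
  rw [add_sub_add_left_eq_sub, ← sub_div, abs_div, Nat.abs_cast]
  unfold cc
  by_cases hc : x.col = y.col
  · have hc' : (Φ N x).col = (Φ N y).col := congrArg (e N) hc
    rw [if_pos hc, if_pos hc']
    exact gamma_diff N x.col _
  · have hc' : (Φ N x).col ≠ (Φ N y).col := fun h => hc (e_injective N h)
    rw [if_neg hc, if_neg hc', sub_self, abs_zero, zero_div]
    positivity

lemma dGH_le (N : ℕ) : dGH (Col γX) (Col γY) ≤ ENNReal.ofReal (1 / ((N : ℝ) + 1)) := by
  have hN : (0 : ℝ) < 1 / ((N : ℝ) + 1) := by positivity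
  let inst : MetricSpace (Col γX ⊕ Col γY) := glueMetricApprox (Φ N) (id : Col γY → Col γY)
    (1 / ((N : ℝ) + 1)) hN fun p q => by
      have := Φ_dist N p q
      change |dist (Φ N p) (Φ N q) - dist p q| ≤ _
      linarith
  have hg : ∀ p : Col γY, dist (Sum.inl (Φ N p) : Col γX ⊕ Col γY) (Sum.inr p) =
      1 / ((N : ℝ) + 1) := fun p => glueDist_glued_points (Φ N) id (1 / ((N : ℝ) + 1)) p
  refine (iInf_le _ (Col γX ⊕ Col γY)).trans ((iInf_le _ inst).trans
    ((iInf_le _ Sum.inl).trans ((iInf_le _ Sum.inr).trans ((iInf_le _ ?_).trans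
      ((iInf_le _ ?_).trans ?_)))))
  · exact Isometry.of_dist_eq fun _ _ => rfl
  · exact Isometry.of_dist_eq fun _ _ => rfl
  · refine hausdorffEDist_le_of_mem_edist ?_ ?_
    · rintro _ ⟨x, rfl⟩
      obtain ⟨p, rfl⟩ := Φ_surjective N x
      refine ⟨_, ⟨p, rfl⟩, ?_⟩
      rw [edist_dist, hg]
    · rintro _ ⟨p, rfl⟩
      refine ⟨_, ⟨Φ N p, rfl⟩, ?_⟩
      rw [edist_comm, edist_dist, hg]

lemma dGH_eq_zero : dGH (Col γX) (Col γY) = 0 := by
  have h : Tendsto (fun N : ℕ => ENNReal.ofReal (1 / ((N : ℝ) + 1))) atTop (𝓝 0) := by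
    have := ENNReal.tendsto_ofReal (tendsto_one_div_add_atTop_nhds_zero_nat (𝕜 := ℝ))
    rwa [ENNReal.ofReal_zero] at this
  exact le_antisymm (ge_of_tendsto' h dGH_le) zero_le

/-! ### The spaces are not isometric -/

lemma not_isometric : IsEmpty (Col γX ≃ᵢ Col γY) := by
  refine ⟨fun f => ?_⟩
  set x := f.symm ⟨none, 0⟩ with hx
  set y := f.symm ⟨none, x.col + 1⟩ with hy
  have hne : (⟨none, 0⟩ : Col γY) ≠ ⟨none, x.col + 1⟩ := by
    intro h
    have := congrArg Col.ht h
    simp at this
  have hxy : x ≠ y := fun h => hne (f.symm.injective h)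
  have h1 : dd x y = dd (⟨none, 0⟩ : Col γY) ⟨none, x.col + 1⟩ := f.symm.isometry.dist_eq _ _
  have h2 : MM (⟨none, 0⟩ : Col γY) ⟨none, x.col + 1⟩ = x.col + 3 := by
    simp [MM]
  have h3 : cc (⟨none, 0⟩ : Col γY) ⟨none, x.col + 1⟩ = 1 := by
    simp [cc, γY]
  rw [dd_of_ne hxy, dd_of_ne hne, h2, h3] at h1
  have h4 := cc_div_nonneg good_X x y
  have h5 := cc_div_le good_X x y
  have h6 : (0 : ℝ) < ((x.col + 3 : ℕ) : ℝ) := by positivity
  have h7 : 1 / ((x.col + 3 : ℕ) : ℝ) ≤ 1 / 2 := by
    apply one_div_le_one_div_of_le two_pos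
    push_cast
    have : (0 : ℝ) ≤ x.col := Nat.cast_nonneg _
    linarith
  have h8 : 0 ≤ 1 / ((x.col + 3 : ℕ) : ℝ) := by positivity
  have h9 : MM x y = x.col + 3 := by
    have a1 : (MM x y : ℝ) < ((x.col + 3 : ℕ) : ℝ) + 1 := by linarith
    have a2 : ((x.col + 3 : ℕ) : ℝ) < (MM x y : ℝ) + 1 := by linarith
    have a3 : MM x y < x.col + 3 + 1 := by exact_mod_cast a1
    have a4 : x.col + 3 < MM x y + 1 := by exact_mod_cast a2
    omega
  rw [h9, add_right_inj, div_left_inj' h6.ne'] at h1
  unfold cc at h1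
  split_ifs at h1 with h10
  · unfold γX at h1
    unfold MM at h9
    have h11 : ¬ max x.ht y.ht < x.col := by omega
    rw [if_neg h11] at h1
    norm_num at h1
  · norm_num at h1

/-- There are two non-isometric metric spaces with Gromov-Hausdorff distance zero, the distance set
of the first of which is closed and discrete. -/
theorem result : ∃ (X Y : Type) (_ : MetricSpace X) (_ : MetricSpace Y),
    Nonempty X ∧ Nonempty Y ∧ IsClosed (distSet X) ∧ DiscreteTopology (distSet X) ∧
      dGH X Y = 0 ∧ IsEmpty (X ≃ᵢ Y) :=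
  ⟨Col γX, Col γY, inferInstance, inferInstance, inferInstance, ⟨⟨none, 0⟩⟩, distSet_X.1,
    distSet_X.2, dGH_eq_zero, not_isometric⟩

end Pool.Agent.Results.MP_1d6438_gt.ShiftedColumns
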